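import Pool.Agent.Helper78.OrbitPolytope.Final

/-!
# A component of a combinatorial-type class which is not a submanifold

Let `Γ` be the group of order 16 of isometries of `ℝ⁵ = ℂ² × ℝ` generated by
`(z₁, z₂, h) ↦ (i z₁, i z₂, h)`, `(z₁, z₂, h) ↦ (z₁, -z₂, h)` and `(z₁, z₂, h) ↦ (z₂, z₁, -h)`.
Near the point `w = (√2, 1 + i, 1)` (and its positive multiples) the points of the sphere whose
orbit polytope has the combinatorial type of that of `w` are those of the cross
`(|z₁|² - |z₂|²) (Re (z₂ z̄₁) - Im (z₂ z̄₁)) = 0`, the union of two hypersurfaces which are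
transverse at `w`. At the points of the cross the orbit polytope has 34 facets, with 6 or 8
vertices each; off the cross some facets with 6 vertices split and there is a facet with 5 vertices.
-/

open Pool.Agent.Helper78.OrbitPolytope

namespace Pool.Agent.Results.MP_7b675e_co.NotSubmanifold

/-- There is a finite group `Γ` of linear isometries of `ℝ⁵` such that for every radius `r > 0`
there is a point `w` of the sphere of radius `r` for which the connected component of `w` in its
combinatorial-type class is not an embedded submanifold (of any class `C^n`, `n ≥ 1`). -/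
theorem result : ∃ Γ : Subgroup (EuclideanSpace ℝ (Fin 5) ≃ₗᵢ[ℝ] EuclideanSpace ℝ (Fin 5)),
    (Γ : Set (EuclideanSpace ℝ (Fin 5) ≃ₗᵢ[ℝ] EuclideanSpace ℝ (Fin 5))).Finite ∧
      ∀ r : ℝ, 0 < r → ∃ w ∈ Metric.sphere (0 : EuclideanSpace ℝ (Fin 5)) r,
        ∀ n : WithTop ℕ∞, 1 ≤ n →
          ¬ IsEmbeddedSubmanifold n (connectedComponentIn (typeClass Γ r w) w) := by
  refine ⟨Gam, finite_Gam, fun r hr => ?_⟩
  have h5 : 0 < √(5 : ℝ) := by positivity
  have ht : 0 < r / √5 := div_pos hr h5
  have hr' : r / √5 * √5 = r := div_mul_cancel₀ r h5.ne'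
  refine ⟨base (r / √5), ?_, fun n hn => ?_⟩
  · have h := (main ht le_rfl).1
    rwa [hr'] at h
  · have h := (main ht hn).2
    rwa [hr'] at h

end Pool.Agent.Results.MP_7b675e_co.NotSubmanifold
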